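import Pool.Agent.TH818.AP.Mv2
import Pool.Agent.TH659.AQ.Log
import Pool.Agent.TH659.AQ.StrRank

/-!
# Singular matrices of logarithms: the logarithms of `±∏ (q_j + x_i)^c` at almost all rationals `q_j`
-/

set_option autoImplicit false

namespace Pool.Agent.TH659.AQ.Old

/-- The complex numbers `∑ c_(j,i) log (q_j + x_i) + c_0 π i` with integers `c` of absolute value at most `H`: the
complex logarithms, with imaginary part at most `π H` in absolute value, of the numbers `± ∏ (q_j + x_i) ^ c_(j,i)`. -/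
def Logs {n k : ℕ} (x : Fin k → ℝ) (q : Fin n → ℚ) (H : ℝ) : Set ℂ :=
  {z | ∃ (c : Fin n → Fin k → ℤ) (c0 : ℤ), (∀ j i, |(c j i : ℝ)| ≤ H) ∧ |(c0 : ℝ)| ≤ H ∧
    z = ((∑ j, ∑ i, (c j i : ℝ) * Real.log (q j + x i) : ℝ) : ℂ) + c0 * (Real.pi * Complex.I)}

/-- The conclusion of the question for the matrix `M`: there are nonzero `w, v ∈ ℚ^m` with `w^t M v = 0`. -/
def RationalZero {m : ℕ} (M : Matrix (Fin m) (Fin m) ℂ) : Prop :=
  ∃ w v : Fin m → ℚ, w ≠ 0 ∧ v ≠ 0 ∧ ∑ i, ∑ j, (w i : ℂ) * M i j * (v j : ℂ) = 0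

/-- The `n`-tuples `q` of rational numbers in `[a, b]` with denominators at most `T` for which there is an `m × m`
matrix with entries in `Logs x q (T ^ A)` and determinant of absolute value at most `T ^ (-B)` that does not satisfy
the conclusion of the question. -/
def Exceptional {k : ℕ} (n m : ℕ) (x : Fin k → ℝ) (a b A B T : ℝ) : Set (Fin n → ℚ) :=
  {q | (∀ j, a ≤ q j ∧ q j ≤ b ∧ ((q j).den : ℝ) ≤ T) ∧
    ∃ M : Matrix (Fin m) (Fin m) ℂ, (∀ i j, M i j ∈ Logs x q (T ^ A)) ∧ ‖M.det‖ ≤ T ^ (-B) ∧ ¬ RationalZero M}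

open Pool.Agent Pool.Agent.TH659.AQ in
/-- Let `x_1, …, x_k` be distinct real numbers, `a < b` with `a + x_i > 0`, `n ≥ 1`, `m`, `A ≥ 0` and
`β > 2 - 2 / ((m + 1) ^ (k n + 1) + 1)`. There are `B` and `C` such that for all `T ≥ 1` there are at most
`C T ^ (2 (n - 1) + β)` exceptional `n`-tuples. -/
theorem result (n k m : ℕ) (hn : 1 ≤ n) (x : Fin k → ℝ) (hx : Function.Injective x) (a b : ℝ) (hab : a < b)
    (hpos : ∀ i, 0 < a + x i) (A β : ℝ) (hA : 0 ≤ A) (hβ : 2 - 2 / (((m : ℝ) + 1) ^ (k * n + 1) + 1) < β) :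
    ∃ B C : ℝ, ∀ T : ℝ, 1 ≤ T → (Exceptional n m x a b A B T).Finite ∧
      ((Exceptional n m x a b A B T).ncard : ℝ) ≤ C * T ^ (2 * ((n : ℝ) - 1) + β) := by
  classical
  have hind : TH818.AP.RIndep (fun (e : Fin k → Fin (m + 1)) (t : ℝ) => ∏ i, lf x i t ^ (e i : ℕ)) a b :=
    log_ind m k x hx a b hpos hab
  have han : ∀ i, AnalyticOnNhd ℝ (lf x i) (Set.Icc a b) := by
    intro i t ht
    exact lf_an x i (by linarith [ht.1, hpos i])
  have hA' : 0 ≤ (m : ℝ) * A + 1 := by positivity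
  have hM0 : (0 : ℝ) < ((m : ℝ) + 1) ^ (k * n + 1) := by positivity
  have hβ0 : 0 < β := by
    refine lt_of_le_of_lt ?_ hβ
    rw [sub_nonneg, div_le_iff₀ (by positivity)]
    linarith
  obtain ⟨B, C, h⟩ := TH818.AP.polys (lf x) a b hab han hind n hn (m * A + 1) β hA' hβ
  -- small `T`
  set T1 : ℝ := (m.factorial : ℝ) * ((Fintype.card (Fin n × Fin k) : ℝ) + 1) ^ m with hT1
  have hfinT : ∀ T : ℝ, (Exceptional n m x a b A B T) ⊆
      (Fintype.piFinset fun _ : Fin n => TH818.AP.RT a b T : Finset (Fin n → ℚ)) := by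
    intro T q hq
    rw [Finset.mem_coe, Fintype.mem_piFinset]
    exact fun j => TH818.AP.mem_RT.2 ⟨⟨(hq.1 j).1, (hq.1 j).2.1⟩, (hq.1 j).2.2⟩
  set C0 : ℝ := ((Fintype.piFinset fun _ : Fin n => TH818.AP.RT a b T1).card : ℝ) with hC0
  have hC00 : 0 ≤ C0 := by positivity
  refine ⟨B, |C| + C0, ?_⟩
  intro T hT
  have hfin : (Exceptional n m x a b A B T).Finite := (Finset.finite_toSet _).subset (hfinT T)
  refine ⟨hfin, ?_⟩
  have hTp : 0 < T := by linarith
  have hn1 : (1 : ℝ) ≤ n := by exact_mod_cast hn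
  have hTβ : 1 ≤ T ^ (2 * ((n : ℝ) - 1) + β) := Real.one_le_rpow hT (by nlinarith)
  rcases lt_or_ge T T1 with hlt | hge
  · have h1 : (Exceptional n m x a b A B T) ⊆
        (Fintype.piFinset fun _ : Fin n => TH818.AP.RT a b T1 : Finset (Fin n → ℚ)) := by
      intro q hq
      rw [Finset.mem_coe, Fintype.mem_piFinset]
      exact fun j => TH818.AP.mem_RT.2 ⟨⟨(hq.1 j).1, (hq.1 j).2.1⟩, (hq.1 j).2.2.trans hlt.le⟩
    have h2 := Set.ncard_le_ncard h1 (Finset.finite_toSet _)
    rw [Set.ncard_coe_finset] at h2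
    have h3 : ((Exceptional n m x a b A B T).ncard : ℝ) ≤ C0 := by rw [hC0]; exact_mod_cast h2
    nlinarith [abs_nonneg C]
  · obtain ⟨hf, hle⟩ := h T hT
    have hsub : Exceptional n m x a b A B T ⊆ {t : Fin n → ℚ | (∀ j, a ≤ t j ∧ t j ≤ b ∧ ((t j).den : ℝ) ≤ T) ∧
        ∃ P : MvPolynomial (Option (Fin n × Fin k)) ℤ, P ≠ 0 ∧ (∀ x, P.degreeOf x ≤ m) ∧
          (∀ u, |((P.coeff u : ℤ) : ℝ)| ≤ T ^ (m * A + 1)) ∧
          |MvPolynomial.aeval (fun z : Option (Fin n × Fin k) =>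
            z.elim Real.pi fun y => lf x y.2 (t y.1)) P| ≤ T ^ (-B)} := by
      rintro q ⟨hq, M, hM, hdet, hMz⟩
      refine ⟨hq, ?_⟩
      by_contra hcon
      push Not at hcon
      choose c c0 hc hc0 hMe using hM
      apply hMz
      set y : Fin n × Fin k → ℝ := fun s => lf x s.2 (q s.1) with hy
      set cc : Fin m → Fin m → Option (Fin n × Fin k) → ℤ :=
        fun i j s => s.elim (c0 i j) (fun z => c i j z.1 z.2) with hcc
      have hMc : M = cMat cc y := by
        ext i j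
        rw [hMe i j]
        simp only [cMat, Matrix.of_apply, Fintype.sum_option, hcc, vc, Option.elim, hy, lf]
        rw [Fintype.sum_prod_type]
        push_cast
        ring
      obtain ⟨w, v, hw, hv, hwv⟩ := str y A B T hT hge (fun P hP0 hPd hPc => hcon P hP0 hPd hPc) cc
        (by
          intro i j s
          cases s with
          | none => exact hc0 i j
          | some z => exact hc i j z.1 z.2)
        (by rw [← hMc]; exact hdet)
      refine ⟨w, v, hw, hv, ?_⟩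
      have h1 : ∑ i, ∑ j, (w i : ℂ) * M i j * (v j : ℂ) =
          ∑ s, (∑ i, ∑ j, (w i : ℂ) * ((cc i j s : ℤ) : ℂ) * (v j : ℂ)) * vc y s := by
        rw [hMc]
        simp only [cMat, Matrix.of_apply, Finset.mul_sum, Finset.sum_mul]
        rw [Finset.sum_comm]
        simp only [Finset.sum_comm (s := (Finset.univ : Finset (Option (Fin n × Fin k))))]
        rw [Finset.sum_comm]
        refine Finset.sum_congr rfl fun i _ => ?_
        refine Finset.sum_congr rfl fun j _ => ?_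
        refine Finset.sum_congr rfl fun s _ => ?_
        ring
      rw [h1]
      refine Finset.sum_eq_zero fun s _ => ?_
      have h2 := congrArg (fun r : ℚ => (r : ℂ)) (hwv s)
      push_cast at h2
      rw [h2, zero_mul]
    have h3 := Set.ncard_le_ncard hsub hf
    have h4 : ((Exceptional n m x a b A B T).ncard : ℝ) ≤ _ := (Nat.cast_le (α := ℝ)).2 h3
    have h5 := h4.trans hle
    have h6 := le_abs_self C
    nlinarith

end Pool.Agent.TH659.AQ.Old
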